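import Pool.Agent.Helper48_Loc.Marg
import Pool.Agent.Helper48_Loc.Null
import Pool.Agent.Helper54_Ballistic.Law

/-!
# Events which depend on finitely many sites: the infinite product law and the law of a finite set
-/

set_option autoImplicit false
set_option linter.unusedSectionVars false

open MeasureTheory ProbabilityTheory Function

open scoped ENNReal BigOperators

noncomputable section

namespace Pool.Agent.Mob.H75

open Pool.Agent.Anderson Pool.Agent.Loc Pool.Agent.Helper54.Bal

variable {d : ℕ} {ν : Measure ℝ} [IsProbabilityMeasure ν]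

theorem map_restrict_PP (Λ : Finset (Site d)) :
    (PP d ν).map (fun (V : Site d → ℝ) (z : Λ) => V z) = Measure.pi fun _ : Λ => ν := by
  unfold PP
  exact Measure.infinitePi_map_restrict (fun _ : Site d => ν)

theorem measurable_restr (Λ : Finset (Site d)) :
    Measurable (fun (V : Site d → ℝ) (z : Λ) => V z) :=
  measurable_pi_lambda _ fun _ => measurable_pi_apply _

/-- the configuration in `Λ`, extended by `0` -/
def cut (Λ : Finset (Site d)) (V : Site d → ℝ) : Site d → ℝ :=
  updateFinset (0 : Site d → ℝ) Λ (fun z => V z)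

theorem measurable_cut (Λ : Finset (Site d)) : Measurable (cut Λ) :=
  measurable_updateFinset.comp (measurable_restr Λ)

theorem cut_apply {Λ : Finset (Site d)} {x : Site d} (hx : x ∈ Λ) (V : Site d → ℝ) :
    cut Λ V x = V x := by
  unfold cut updateFinset
  rw [dif_pos hx]

theorem map_cut (Λ : Finset (Site d)) : (PP d ν).map (cut Λ) = PL ν Λ := by
  have h := Measure.map_map (μ := PP d ν) (g := updateFinset (0 : Site d → ℝ) Λ)
    measurable_updateFinset (measurable_restr Λ)
  rw [map_restrict_PP] at h
  exact h.symm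

/-- `S` depends only on the sites of `Λ` -/
def Loc (S : Set (Site d → ℝ)) (Λ : Finset (Site d)) : Prop :=
  ∀ V V' : Site d → ℝ, (∀ x ∈ Λ, V x = V' x) → (V ∈ S ↔ V' ∈ S)

theorem mem_cut {S : Set (Site d → ℝ)} {Λ : Finset (Site d)} (h : Loc S Λ) (V : Site d → ℝ) :
    cut Λ V ∈ S ↔ V ∈ S :=
  h _ _ fun _ hx => cut_apply hx V

theorem PL_eq_PP {Λ : Finset (Site d)} {S : Set (Site d → ℝ)} (hS : MeasurableSet S)
    (h : Loc S Λ) : PL ν Λ S = PP d ν S := by
  rw [← map_cut, Measure.map_apply (measurable_cut Λ) hS]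
  congr 1
  ext V
  exact mem_cut h V

theorem PP_le_PL {Λ : Finset (Site d)} {S : Set (Site d → ℝ)} (h : Loc S Λ) :
    PP d ν S ≤ PL ν Λ S := by
  have e : PL ν Λ S = PP d ν (cut Λ ⁻¹' toMeasurable (PL ν Λ) S) := by
    rw [← Measure.map_apply (measurable_cut Λ) (measurableSet_toMeasurable _ _), map_cut,
      measure_toMeasurable]
  rw [e]
  apply measure_mono
  intro V hV
  exact subset_toMeasurable _ _ ((mem_cut h V).2 hV)

end Pool.Agent.Mob.H75
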