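import Pool.Agent.Mob.Stmts
import Pool.Agent.Helper48_Loc.TwoBox
import Pool.Agent.Helper75_Mob.Transfer

/-!
# TBX: two distant cubes are not simultaneously bad
-/

set_option autoImplicit false
set_option linter.unusedSectionVars false

open MeasureTheory ProbabilityTheory Function

open scoped ENNReal BigOperators

noncomputable section

namespace Pool.Agent.Mob.H75

open Pool.Agent.Anderson Pool.Agent.Loc Pool.Agent.Helper54.Bal

variable {d : ℕ}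

section Abstract

variable {α β : Type*} [TopologicalSpace α] [MeasurableSpace α] [BorelSpace α]
  [SecondCountableTopology α] [TopologicalSpace β] [MeasurableSpace β] [BorelSpace β]
  [SecondCountableTopology β]

theorem exists_root_Icc {q₁ q₂ : ℝ → ℝ} (h₁ : Continuous q₁) (h₂ : Continuous q₂) {a b E : ℝ}
    (hE : E ∈ Set.Icc a b) (hq₁ : 0 ≤ q₁ E) (hq₂ : 0 ≤ q₂ E) :
    0 ≤ q₁ a ∨ (∃ F ∈ Set.Icc a b, q₁ F = 0 ∧ 0 ≤ q₂ F) ∨
      (∃ F ∈ Set.Icc a b, q₂ F = 0 ∧ 0 ≤ q₁ F) := by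
  have hab : a ≤ b := hE.1.trans hE.2
  have hc : Continuous (fun F : ℝ => min F b) := continuous_id.min continuous_const
  have key := exists_root (q₁ := fun F => q₁ (min F b)) (q₂ := fun F => q₂ (min F b))
    (h₁.comp hc) (h₂.comp hc) hE.1 (by rw [min_eq_left hE.2]; exact hq₁)
    (by rw [min_eq_left hE.2]; exact hq₂)
  rcases key with h | ⟨F, f1, f2, f3⟩ | ⟨F, f1, f2, f3⟩
  · left
    rwa [min_eq_left hab] at h
  · exact Or.inr (Or.inl ⟨min F b, ⟨le_min f1 hab, min_le_right _ _⟩, f2, f3⟩)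
  · exact Or.inr (Or.inr ⟨min F b, ⟨le_min f1 hab, min_le_right _ _⟩, f2, f3⟩)

theorem measurableSet_exists_I {g₁ : α → ℝ → ℝ} {g₂ : β → ℝ → ℝ}
    (h₁ : Continuous (fun p : α × ℝ => g₁ p.1 p.2))
    (h₂ : Continuous (fun p : β × ℝ => g₂ p.1 p.2)) {I : Set ℝ} (hI : IsClosed I) :
    MeasurableSet {p : α × β | ∃ E ∈ I, 0 ≤ g₁ p.1 E ∧ 0 ≤ g₂ p.2 E} := by
  have e₁ : Continuous (fun p : (α × β) × ℝ => g₁ p.1.1 p.2) :=
    h₁.comp ((continuous_fst.comp continuous_fst).prodMk continuous_snd)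
  have e₂ : Continuous (fun p : (α × β) × ℝ => g₂ p.1.2 p.2) :=
    h₂.comp ((continuous_snd.comp continuous_fst).prodMk continuous_snd)
  have := measurableSet_exists (α := α) (β := β) hI
    (F := {p | 0 ≤ g₁ p.1.1 p.2} ∩ {p | 0 ≤ g₂ p.1.2 p.2})
    ((isClosed_le continuous_const e₁).inter (isClosed_le continuous_const e₂))
  exact this

/-- the probability that the second function is `≥ 0` at a root of the first one -/
theorem prob_root_I {μ₁ : Measure α} {μ₂ : Measure β} [IsProbabilityMeasure μ₁] [SFinite μ₂]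
    {q₁ : α → ℝ → ℝ} {q₂ : β → ℝ → ℝ} {I : Set ℝ} {N : ℕ} {K : ℝ≥0∞}
    (hN : ∀ a, ∃ s : Finset ℝ, s.card ≤ N ∧ ∀ E, q₁ a E = 0 → E ∈ s)
    (hK : ∀ E ∈ I, μ₂ {b | 0 ≤ q₂ b E} ≤ K)
    (hB : MeasurableSet {p : α × β | ∃ E ∈ I, q₁ p.1 E = 0 ∧ 0 ≤ q₂ p.2 E}) :
    (μ₁.prod μ₂) {p | ∃ E ∈ I, q₁ p.1 E = 0 ∧ 0 ≤ q₂ p.2 E} ≤ N * K := by
  classical
  rw [Measure.prod_apply hB]
  calc ∫⁻ a, μ₂ (Prod.mk a ⁻¹' {p : α × β | ∃ E ∈ I, q₁ p.1 E = 0 ∧ 0 ≤ q₂ p.2 E}) ∂μ₁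
      ≤ ∫⁻ _a, (N : ℝ≥0∞) * K ∂μ₁ := by
        apply lintegral_mono
        intro a
        obtain ⟨s, hs1, hs2⟩ := hN a
        have hsub : Prod.mk a ⁻¹' {p : α × β | ∃ E ∈ I, q₁ p.1 E = 0 ∧ 0 ≤ q₂ p.2 E} ⊆
            ⋃ E ∈ s.filter (fun E => E ∈ I), {b | 0 ≤ q₂ b E} := by
          intro b hb
          obtain ⟨E, e1, e2, e3⟩ := hb
          simp only [Set.mem_iUnion]
          exact ⟨E, Finset.mem_filter.2 ⟨hs2 E e2, e1⟩, e3⟩
        calc μ₂ (Prod.mk a ⁻¹' {p : α × β | ∃ E ∈ I, q₁ p.1 E = 0 ∧ 0 ≤ q₂ p.2 E})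
            ≤ μ₂ (⋃ E ∈ s.filter (fun E => E ∈ I), {b | 0 ≤ q₂ b E}) := measure_mono hsub
          _ ≤ ∑ E ∈ s.filter (fun E => E ∈ I), μ₂ {b | 0 ≤ q₂ b E} :=
              measure_biUnion_finset_le _ _
          _ ≤ ∑ _E ∈ s.filter (fun E => E ∈ I), K :=
              Finset.sum_le_sum fun E hE => hK E (Finset.mem_filter.1 hE).2
          _ = ((s.filter (fun E => E ∈ I)).card : ℝ≥0∞) * K := by
              rw [Finset.sum_const, nsmul_eq_mul]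
          _ ≤ (N : ℝ≥0∞) * K := by
              gcongr
              exact (Finset.card_filter_le _ _).trans hs1
    _ = (N : ℝ≥0∞) * K := by rw [lintegral_const, measure_univ, mul_one]

/-- the same with the factors exchanged -/
theorem prob_root_I' {μ₁ : Measure α} {μ₂ : Measure β} [IsProbabilityMeasure μ₂] [SFinite μ₁]
    {q₁ : α → ℝ → ℝ} {q₂ : β → ℝ → ℝ} {I : Set ℝ} {N : ℕ} {K : ℝ≥0∞}
    (hN : ∀ b, ∃ s : Finset ℝ, s.card ≤ N ∧ ∀ E, q₂ b E = 0 → E ∈ s)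
    (hK : ∀ E ∈ I, μ₁ {a | 0 ≤ q₁ a E} ≤ K)
    (hB : MeasurableSet {p : α × β | ∃ E ∈ I, q₂ p.2 E = 0 ∧ 0 ≤ q₁ p.1 E}) :
    (μ₁.prod μ₂) {p | ∃ E ∈ I, q₂ p.2 E = 0 ∧ 0 ≤ q₁ p.1 E} ≤ N * K := by
  have h := prob_root_I (μ₁ := μ₂) (μ₂ := μ₁) (q₁ := q₂) (q₂ := q₁) (I := I) hN hK
    (hB.preimage measurable_swap)
  rw [← Measure.prod_swap, Measure.map_apply measurable_swap hB]
  exact h

/-- the probability that both functions are `≥ 0` at some common point -/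
theorem prob_both_I {μ₁ : Measure α} {μ₂ : Measure β} [IsProbabilityMeasure μ₁]
    [IsProbabilityMeasure μ₂] {q₁ : α → ℝ → ℝ} {q₂ : β → ℝ → ℝ}
    (hq₁ : Continuous (fun p : α × ℝ => q₁ p.1 p.2))
    (hq₂ : Continuous (fun p : β × ℝ => q₂ p.1 p.2))
    {a b : ℝ} (hab : a ≤ b) {N₁ N₂ : ℕ} {K : ℝ≥0∞}
    (hN₁ : ∀ x, ∃ s : Finset ℝ, s.card ≤ N₁ ∧ ∀ E, q₁ x E = 0 → E ∈ s)
    (hN₂ : ∀ y, ∃ s : Finset ℝ, s.card ≤ N₂ ∧ ∀ E, q₂ y E = 0 → E ∈ s)
    (hK₁ : ∀ E ∈ Set.Icc a b, μ₁ {x | 0 ≤ q₁ x E} ≤ K)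
    (hK₂ : ∀ E ∈ Set.Icc a b, μ₂ {y | 0 ≤ q₂ y E} ≤ K) :
    (μ₁.prod μ₂) {p | ∃ E ∈ Set.Icc a b, 0 ≤ q₁ p.1 E ∧ 0 ≤ q₂ p.2 E} ≤
      ((1 + N₁ + N₂ : ℕ) : ℝ≥0∞) * K := by
  have hI : IsClosed (Set.Icc a b) := isClosed_Icc
  have g₁ : Continuous (fun p : (α × β) × ℝ => q₁ p.1.1 p.2) :=
    hq₁.comp ((continuous_fst.comp continuous_fst).prodMk continuous_snd)
  have g₂ : Continuous (fun p : (α × β) × ℝ => q₂ p.1.2 p.2) :=
    hq₂.comp ((continuous_snd.comp continuous_fst).prodMk continuous_snd)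
  have hB₁ : MeasurableSet {p : α × β | ∃ E ∈ Set.Icc a b, q₁ p.1 E = 0 ∧ 0 ≤ q₂ p.2 E} := by
    have := measurableSet_exists (α := α) (β := β) hI
      (F := {p | q₁ p.1.1 p.2 = 0} ∩ {p | 0 ≤ q₂ p.1.2 p.2})
      ((isClosed_eq g₁ continuous_const).inter (isClosed_le continuous_const g₂))
    exact this
  have hB₂ : MeasurableSet {p : α × β | ∃ E ∈ Set.Icc a b, q₂ p.2 E = 0 ∧ 0 ≤ q₁ p.1 E} := by
    have := measurableSet_exists (α := α) (β := β) hI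
      (F := {p | q₂ p.1.2 p.2 = 0} ∩ {p | 0 ≤ q₁ p.1.1 p.2})
      ((isClosed_eq g₂ continuous_const).inter (isClosed_le continuous_const g₁))
    exact this
  have hsub : {p : α × β | ∃ E ∈ Set.Icc a b, 0 ≤ q₁ p.1 E ∧ 0 ≤ q₂ p.2 E} ⊆
      ({x | 0 ≤ q₁ x a} ×ˢ Set.univ) ∪
      ({p | ∃ E ∈ Set.Icc a b, q₁ p.1 E = 0 ∧ 0 ≤ q₂ p.2 E} ∪
       {p | ∃ E ∈ Set.Icc a b, q₂ p.2 E = 0 ∧ 0 ≤ q₁ p.1 E}) := by
    rintro ⟨x, y⟩ ⟨E, e1, e2, e3⟩
    have c₁ : Continuous (q₁ x) := hq₁.comp (Continuous.prodMk continuous_const continuous_id)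
    have c₂ : Continuous (q₂ y) := hq₂.comp (Continuous.prodMk continuous_const continuous_id)
    rcases exists_root_Icc c₁ c₂ e1 e2 e3 with h | h | h
    · exact Or.inl ⟨h, trivial⟩
    · exact Or.inr (Or.inl h)
    · exact Or.inr (Or.inr h)
  have k1 : (μ₁.prod μ₂) ({x | 0 ≤ q₁ x a} ×ˢ Set.univ) ≤ K := by
    rw [Measure.prod_prod, measure_univ, mul_one]
    exact hK₁ a ⟨le_rfl, hab⟩
  have k3 := prob_root_I (μ₁ := μ₁) (μ₂ := μ₂) hN₁ hK₂ hB₁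
  have k4 := prob_root_I' (μ₁ := μ₁) (μ₂ := μ₂) hN₂ hK₁ hB₂
  calc (μ₁.prod μ₂) {p | ∃ E ∈ Set.Icc a b, 0 ≤ q₁ p.1 E ∧ 0 ≤ q₂ p.2 E}
      ≤ _ := measure_mono hsub
    _ ≤ K + (N₁ * K + N₂ * K) := by
        refine (measure_union_le _ _).trans (add_le_add k1 ?_)
        exact (measure_union_le _ _).trans (add_le_add k3 k4)
    _ = ((1 + N₁ + N₂ : ℕ) : ℝ≥0∞) * K := by push_cast; ring

end Abstract

/-! ### probability -/

variable {ν : Measure ℝ} [IsProbabilityMeasure ν]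

theorem prob_pair_I {Λ₁ Λ₂ : Finset (Site d)}
    (hdis : Disjoint Λ₁ Λ₂) {x u y v : Site d} (hx : x ∈ Λ₁) (hu : u ∈ Λ₁) (hy : y ∈ Λ₂)
    (hv : v ∈ Λ₂) {t a b : ℝ} (ht : 0 < t) (hab : a ≤ b) {K : ℝ≥0∞}
    (hK₁ : ∀ E ∈ Set.Icc a b, PP d ν {V | ¬ Good V Λ₁ E x u t} ≤ K)
    (hK₂ : ∀ E ∈ Set.Icc a b, PP d ν {V | ¬ Good V Λ₂ E y v t} ≤ K) :
    PP d ν {V | ∃ E ∈ Set.Icc a b, ¬ Good V Λ₁ E x u t ∧ ¬ Good V Λ₂ E y v t} ≤
      ((1 + 2 * Λ₁.card + 2 * Λ₂.card : ℕ) : ℝ≥0∞) * K := by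
  have hfm := measurable_restr (d := d) Λ₁
  have hgm := measurable_restr (d := d) Λ₂
  have hind : iIndepFun (fun (z : Site d) (V : Site d → ℝ) => V z) (PP d ν) := by
    unfold PP
    exact iIndepFun_infinitePi (X := fun _ r => r) (fun _ => measurable_id)
  have hfg := hind.indepFun_finset Λ₁ Λ₂ hdis (fun z => measurable_pi_apply z)
  have hmap := (indepFun_iff_map_prod_eq_prod_map_map hfm.aemeasurable hgm.aemeasurable).1 hfg
  have i₁ : IsProbabilityMeasure ((PP d ν).map (fun (V : Site d → ℝ) (z : Λ₁) => V z)) :=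
    Measure.isProbabilityMeasure_map hfm.aemeasurable
  have i₂ : IsProbabilityMeasure ((PP d ν).map (fun (V : Site d → ℝ) (z : Λ₂) => V z)) :=
    Measure.isProbabilityMeasure_map hgm.aemeasurable
  have k₁ : ∀ E ∈ Set.Icc a b,
      ((PP d ν).map (fun (V : Site d → ℝ) (z : Λ₁) => V z))
        {c | 0 ≤ qf Λ₁ ⟨x, hx⟩ ⟨u, hu⟩ t c E} ≤ K := by
    intro E hE
    rw [Measure.map_apply hfm (isClosed_qf _ _ t E).measurableSet]
    refine (measure_mono ?_).trans (hK₁ E hE)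
    intro V hV hg
    exact absurd ((good_iff hx hu ht).1 hg) (not_lt.2 hV)
  have k₂ : ∀ E ∈ Set.Icc a b,
      ((PP d ν).map (fun (V : Site d → ℝ) (z : Λ₂) => V z))
        {c | 0 ≤ qf Λ₂ ⟨y, hy⟩ ⟨v, hv⟩ t c E} ≤ K := by
    intro E hE
    rw [Measure.map_apply hgm (isClosed_qf _ _ t E).measurableSet]
    refine (measure_mono ?_).trans (hK₂ E hE)
    intro V hV hg
    exact absurd ((good_iff hy hv ht).1 hg) (not_lt.2 hV)
  have hmain := prob_both_I (q₁ := qf Λ₁ ⟨x, hx⟩ ⟨u, hu⟩ t) (q₂ := qf Λ₂ ⟨y, hy⟩ ⟨v, hv⟩ t)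
    (continuous_qf _ _ t) (continuous_qf _ _ t) hab
    (exists_roots ⟨x, hx⟩ ⟨u, hu⟩ ht.ne') (exists_roots ⟨y, hy⟩ ⟨v, hv⟩ ht.ne') k₁ k₂
  have hms := measurableSet_exists_I (continuous_qf (Λ := Λ₁) ⟨x, hx⟩ ⟨u, hu⟩ t)
    (continuous_qf (Λ := Λ₂) ⟨y, hy⟩ ⟨v, hv⟩ t) (isClosed_Icc (a := a) (b := b))
  rw [← hmap, Measure.map_apply (hfm.prodMk hgm) hms] at hmain
  refine (measure_mono ?_).trans hmain
  rintro V ⟨E, e1, e2, e3⟩
  refine ⟨E, e1, ?_, ?_⟩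
  · by_contra hc
    exact e2 ((good_iff hx hu ht).2 (not_le.1 hc))
  · by_contra hc
    exact e3 ((good_iff hy hv ht).2 (not_le.1 hc))

/-- the bad event at scale `L` -/
def badI (d : ℕ) (I : Set ℝ) (μ : ℝ) (L : ℕ) : Set (Site d → ℝ) :=
  {V | ∃ x ∈ box (0 : Site d) (L ^ 2), ∃ y ∈ box (0 : Site d) (L ^ 2),
    2 * L < sd x y ∧ ∃ E ∈ I, ¬ FGood V L x E μ ∧ ¬ FGood V L y E μ}

theorem good_congr {V V' : Site d → ℝ} {Λ : Finset (Site d)} (h : ∀ x ∈ Λ, V x = V' x)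
    (E : ℝ) (x y : Site d) (t : ℝ) : Good V Λ E x y t ↔ Good V' Λ E x y t := by
  unfold Good
  rw [gr_congr h, RM_congr h]

theorem prob_badI {a b C μ : ℝ} (hab : a ≤ b) (h : BulkDecay d ν (Set.Icc a b) C μ) (L : ℕ) :
    PP d ν (badI d (Set.Icc a b) μ L) ≤ ENNReal.ofReal
      (5 * 2 ^ (5 * d) * |C| * ((L + 1 : ℕ) ^ (7 * d) * Real.exp (-μ * L))) := by
  classical
  set K : ℝ≥0∞ := ENNReal.ofReal (C * Real.exp (-μ * L)) with hK
  set A : Site d → Site d → Site d → Site d → Set (Site d → ℝ) := fun x y u v =>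
    {V | (2 * L < sd x y ∧ sd x u = L ∧ sd y v = L) ∧
      ∃ E ∈ Set.Icc a b, ¬ Good V (box x L) E x u (Real.exp (-μ * L)) ∧
        ¬ Good V (box y L) E y v (Real.exp (-μ * L))} with hA
  have hsub : badI d (Set.Icc a b) μ L ⊆
      ⋃ x ∈ box (0 : Site d) (L ^ 2), ⋃ y ∈ box (0 : Site d) (L ^ 2),
        ⋃ u ∈ box x L, ⋃ v ∈ box y L, A x y u v := by
    rintro V ⟨x, hx, y, hy, hxy, E, hE, hb1, hb2⟩
    unfold FGood at hb1 hb2
    push Not at hb1 hb2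
    obtain ⟨u, hu', hu''⟩ := hb1
    obtain ⟨v, hv', hv''⟩ := hb2
    simp only [Set.mem_iUnion, exists_prop]
    exact ⟨x, hx, y, hy, u, mem_box.2 hu'.le, v, mem_box.2 hv'.le, ⟨hxy, hu', hv'⟩, E, hE, hu'',
      hv''⟩
  have hloc : ∀ (x u : Site d) (E : ℝ), sd x u = L → E ∈ Set.Icc a b →
      PP d ν {V | ¬ Good V (box x L) E x u (Real.exp (-μ * L))} ≤ K := by
    intro x u E hu hE
    refine (PP_le_PL (Λ := box x L) ?_).trans (h x u L E hE hu)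
    intro V V' hVV
    exact not_congr (good_congr hVV E x u _)
  have hAb : ∀ x y u v, PP d ν (A x y u v) ≤ ((1 + 4 * (2 * L + 1) ^ d : ℕ) : ℝ≥0∞) * K := by
    intro x y u v
    by_cases hc : (2 * L < sd x y ∧ sd x u = L ∧ sd y v = L)
    · obtain ⟨hxy, hu', hv'⟩ := hc
      have hx1 : x ∈ box x L := mem_box.2 (by rw [sd_self]; omega)
      have hy1 : y ∈ box y L := mem_box.2 (by rw [sd_self]; omega)
      have hdis : Disjoint (box x L) (box y L) := by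
        rw [Finset.disjoint_left]
        intro z hz1 hz2
        have z1 := mem_box.1 hz1
        have z2 := mem_box.1 hz2
        have z3 := sd_triangle x z y
        rw [sd_comm z y] at z3
        omega
      have := prob_pair_I hdis hx1 (mem_box.2 hu'.le) hy1 (mem_box.2 hv'.le)
        (Real.exp_pos (-μ * L)) hab (fun E hE => hloc x u E hu' hE)
        (fun E hE => hloc y v E hv' hE)
      refine (measure_mono ?_).trans (this.trans ?_)
      · intro V hV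
        exact hV.2
      · rw [card_box, card_box]
        refine mul_le_mul' (Nat.cast_le.2 ?_) le_rfl
        omega
    · have : A x y u v = ∅ := by
        ext V
        simp only [hA, Set.mem_ofPred_eq, Set.mem_empty_iff_false, iff_false]
        intro h'
        exact hc h'.1
      rw [this, measure_empty]
      exact bot_le
  have e1 : PP d ν (badI d (Set.Icc a b) μ L) ≤ (((2 * L ^ 2 + 1) ^ d : ℕ) : ℝ≥0∞) *
      (((2 * L ^ 2 + 1) ^ d : ℕ) * (((2 * L + 1) ^ d : ℕ) * (((2 * L + 1) ^ d : ℕ) *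
        (((1 + 4 * (2 * L + 1) ^ d : ℕ) : ℝ≥0∞) * K)))) := by
    refine (measure_mono hsub).trans ?_
    refine (measure_biUnion_finset_le _ _).trans ?_
    refine (Finset.sum_le_card_nsmul _ _ _ fun x _ => ?_).trans_eq
      (by rw [card_box, nsmul_eq_mul])
    refine (measure_biUnion_finset_le _ _).trans ?_
    refine (Finset.sum_le_card_nsmul _ _ _ fun y _ => ?_).trans_eq
      (by rw [card_box, nsmul_eq_mul])
    refine (measure_biUnion_finset_le _ _).trans ?_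
    refine (Finset.sum_le_card_nsmul _ _ _ fun u _ => ?_).trans_eq
      (by rw [card_box, nsmul_eq_mul])
    refine (measure_biUnion_finset_le _ _).trans ?_
    exact (Finset.sum_le_card_nsmul _ _ _ fun v _ => hAb x y u v).trans_eq
      (by rw [card_box, nsmul_eq_mul])
  refine e1.trans ?_
  have hK' : K ≤ ENNReal.ofReal (|C| * Real.exp (-μ * L)) := by
    apply ENNReal.ofReal_le_ofReal
    exact mul_le_mul_of_nonneg_right (le_abs_self C) (Real.exp_pos _).le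
  have e2 : (((2 * L ^ 2 + 1) ^ d : ℕ) : ℝ≥0∞) *
      (((2 * L ^ 2 + 1) ^ d : ℕ) * (((2 * L + 1) ^ d : ℕ) * (((2 * L + 1) ^ d : ℕ) *
        (((1 + 4 * (2 * L + 1) ^ d : ℕ) : ℝ≥0∞) * K)))) ≤
      ((5 * 2 ^ (5 * d) * (L + 1) ^ (7 * d) : ℕ) : ℝ≥0∞) *
        ENNReal.ofReal (|C| * Real.exp (-μ * L)) := by
    have hnat : (2 * L ^ 2 + 1) ^ d * ((2 * L ^ 2 + 1) ^ d *
        ((2 * L + 1) ^ d * ((2 * L + 1) ^ d * (1 + 4 * (2 * L + 1) ^ d)))) ≤
        5 * 2 ^ (5 * d) * (L + 1) ^ (7 * d) := by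
      have n2 : (2 * L ^ 2 + 1) ^ d ≤ 2 ^ d * (L + 1) ^ (2 * d) := by
        have h1 : 2 * L ^ 2 + 1 ≤ 2 * (L + 1) ^ 2 := by
          have : (L + 1) ^ 2 = L ^ 2 + 2 * L + 1 := by ring
          omega
        rw [pow_mul, ← mul_pow]
        exact Nat.pow_le_pow_left h1 d
      have n3 : (2 * L + 1) ^ d ≤ 2 ^ d * (L + 1) ^ d := by
        rw [← mul_pow]
        exact Nat.pow_le_pow_left (by omega) d
      have n4 : 1 + 4 * (2 * L + 1) ^ d ≤ 5 * (2 ^ d * (L + 1) ^ d) := by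
        have : 1 ≤ (2 * L + 1) ^ d := Nat.one_le_pow _ _ (by omega)
        omega
      calc _ ≤ (2 ^ d * (L + 1) ^ (2 * d)) * ((2 ^ d * (L + 1) ^ (2 * d)) *
          ((2 ^ d * (L + 1) ^ d) * ((2 ^ d * (L + 1) ^ d) * (5 * (2 ^ d * (L + 1) ^ d))))) := by
            gcongr
        _ = _ := by ring
    calc _ = (((2 * L ^ 2 + 1) ^ d * ((2 * L ^ 2 + 1) ^ d *
        ((2 * L + 1) ^ d * ((2 * L + 1) ^ d * (1 + 4 * (2 * L + 1) ^ d)))) : ℕ) : ℝ≥0∞) * K := by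
          push_cast; ring
      _ ≤ _ := by gcongr
  refine e2.trans (le_of_eq ?_)
  rw [← ENNReal.ofReal_natCast, ← ENNReal.ofReal_mul (by positivity)]
  congr 1
  push_cast
  ring

theorem tbx : TbxStmt := by
  intro d ν _ a b C μ _ hμ h
  rcases lt_or_ge b a with hab | hab
  · refine Filter.Eventually.of_forall fun V => ⟨0, ?_⟩
    intro L _ x _ y _ _ E hE
    exact absurd (hE.1.trans hE.2) (not_le.2 hab)
  have hsum : Summable (fun L : ℕ =>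
      5 * 2 ^ (5 * d) * |C| * ((L + 1 : ℕ) ^ (7 * d) * Real.exp (-μ * L))) := by
    apply Summable.mul_left
    have h1 := (summable_nat_add_iff 1).2 (Real.summable_pow_mul_exp_neg_nat_mul (7 * d) hμ)
    have h2 := h1.mul_left (Real.exp μ)
    refine h2.congr fun L => ?_
    have : Real.exp (-μ * L) = Real.exp μ * Real.exp (-μ * ((L + 1 : ℕ) : ℝ)) := by
      rw [← Real.exp_add]
      congr 1
      push_cast
      ring
    rw [this]
    ring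
  have hfin : (∑' L, PP d ν (badI d (Set.Icc a b) μ L)) ≠ ∞ := by
    refine ne_top_of_le_ne_top ?_ (ENNReal.tsum_le_tsum fun L => prob_badI hab h L)
    rw [← ENNReal.ofReal_tsum_of_nonneg (fun L => by positivity) hsum]
    exact ENNReal.ofReal_ne_top
  filter_upwards [ae_eventually_notMem hfin] with V hV
  obtain ⟨L₀, hL₀⟩ := Filter.eventually_atTop.1 hV
  refine ⟨L₀, ?_⟩
  intro L hL x hx y hy hxy E hE
  have hnot := hL₀ L hL
  by_contra hcon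
  push Not at hcon
  exact hnot ⟨x, hx, y, hy, hxy, E, hE, hcon.1, hcon.2⟩

end Pool.Agent.Mob.H75
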