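import Pool.Agent.Mob.Stmts
import Pool.Agent.Helper75_Mob.Transfer

/-!
# CEL: slow spreading makes the cells good with high probability
-/

set_option autoImplicit false
set_option linter.unusedSectionVars false
set_option linter.unusedVariables false

open MeasureTheory ProbabilityTheory Function Filter Topology

open scoped ENNReal BigOperators

noncomputable section

namespace Pool.Agent.Mob.H75

open Pool.Agent.Anderson Pool.Agent.Loc Pool.Agent.Helper54.Bal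

variable {d : ℕ}

theorem cellGood_congr {V V' : Site d → ℝ} {c : Site d} {ℓ : ℕ} {A E : ℝ}
    (h : ∀ x ∈ box c (3 * ℓ), V x = V' x) : CellGood V c ℓ A E ↔ CellGood V' c ℓ A E := by
  unfold CellGood
  rw [RM_congr h]
  simp only [gr_congr h]

theorem measurable_cellGood (c : Site d) (ℓ : ℕ) (A E : ℝ) :
    MeasurableSet {V : Site d → ℝ | CellGood V c ℓ A E} := by
  have h : {V : Site d → ℝ | CellGood V c ℓ A E} =
      {V | (RM V (box c (3 * ℓ)) E).det ≠ 0} ∩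
        ⋂ x ∈ box c ℓ, ⋂ y ∈ box c (3 * ℓ), {V | ℓ ≤ sd x y → |gr V (box c (3 * ℓ)) E x y| ≤ A} := by
    ext V
    simp only [CellGood, Set.mem_ofPred_eq, Set.mem_inter_iff, Set.mem_iInter]
  rw [h]
  apply MeasurableSet.inter
  · exact (measurableSet_eq_fun (continuous_det _ E).measurable measurable_const).compl
  · apply Finset.measurableSet_biInter
    intro x _
    apply Finset.measurableSet_biInter
    intro y _
    by_cases hxy : ℓ ≤ sd x y
    · simp only [hxy, true_imp_iff]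
      exact measurableSet_le (measurable_gr _ E x y).abs measurable_const
    · simp only [hxy, false_imp_iff]
      exact MeasurableSet.univ

theorem noEig_congr {V V' : Site d → ℝ} {Λ : Finset (Site d)} {E r : ℝ}
    (h : ∀ x ∈ Λ, V x = V' x) : NoEig V Λ E r ↔ NoEig V' Λ E r := by
  unfold NoEig
  simp only [RM_congr h]

/-- the deterministic part -/
theorem cell_det (hHol : HolStmt) (hFvl : FvlStmt) (hPtw : PtwStmt) {V : Site d → ℝ}
    {c : Site d} {ℓ : ℕ} {η r h' q ε A a b E : ℝ} (hη : 0 < η) (hh : 0 < h') (hr : 8 * η ≤ r)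
    (hε : 0 ≤ ε) (ha : a ≤ E - r - h') (hb : E + r + 2 * h' ≤ b) (hq : 0 ≤ q)
    (h1 : 2 / h' * q + 12 * h' ^ 2 / η ^ 4 ≤ ε ^ 2)
    (h2 : 3 * (ε * (1 + 2 * d * (box c (3 * ℓ)).card / η)) ≤ A)
    (h3 : 3 / r * Real.exp (-r / (4 * η)) ≤ A)
    (hspr : ∀ x ∈ box c ℓ, spr V x η (Set.Ioo a b) ℓ ≤ ENNReal.ofReal q)
    (hno : NoEig V (box c (3 * ℓ)) E (2 * r)) : CellGood V c ℓ A E := by
  have hr0 : 0 < r := by linarith
  refine ⟨hno E (by rw [sub_self, abs_zero]; positivity), ?_⟩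
  intro x hx y hy hxy
  have hx' := mem_box.1 hx
  have hxB : x ∈ box c (3 * ℓ) := mem_box.2 (by omega)
  have hout : ∀ u, u ∉ box c (3 * ℓ) → ℓ ≤ sd x u := by
    intro u hu
    rw [mem_box] at hu
    have := sd_triangle c x u
    omega
  have hG : ∀ F, |F - E| ≤ r → ∀ u, ℓ ≤ sd x u → ‖G V (zz η F) (del x) u‖ ≤ ε := by
    intro F hF u hu
    have hF' := abs_le.1 hF
    have p := hPtw d V x u η h' F (F - h') (F + 2 * h') hη hh (by linarith) (by linarith)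
    have hle : ∫⁻ F' in Set.Ioo (F - h') (F + 2 * h'),
        ENNReal.ofReal (‖G V (zz η F') (del x) u‖ ^ 2) ≤ ENNReal.ofReal q := by
      refine le_trans ?_ (hspr x hx)
      refine (lintegral_mono_set (Set.Ioo_subset_Ioo (a₁ := F - h') (a₂ := a) (b₁ := F + 2 * h')
        (b₂ := b) (by linarith) (by linarith))).trans ?_
      unfold spr
      apply lintegral_mono
      intro F'
      have := ENNReal.le_tsum (f := fun u => if ℓ ≤ sd x u then
        ENNReal.ofReal (‖G V (zz η F') (del x) u‖ ^ 2) else 0) u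
      beta_reduce at this
      rw [if_pos hu] at this
      exact this
    have hvol : volume (Set.Ioo (F - h') (F + 2 * h')) = ENNReal.ofReal (3 * h') := by
      rw [Real.volume_Ioo]
      congr 1
      ring
    have p2 : ENNReal.ofReal (‖G V (zz η F) (del x) u‖ ^ 2) ≤ ENNReal.ofReal (ε ^ 2) := by
      refine p.trans ?_
      rw [lintegral_add_right _ measurable_const, lintegral_const, Measure.restrict_apply_univ,
        hvol]
      refine (mul_le_mul' le_rfl (add_le_add hle le_rfl)).trans ?_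
      rw [← ENNReal.ofReal_mul (by positivity), ← ENNReal.ofReal_add (by positivity)
        (by positivity), ← ENNReal.ofReal_mul (by positivity)]
      refine ENNReal.ofReal_le_ofReal (le_trans (le_of_eq ?_) h1)
      field_simp
      ring
    rw [ENNReal.ofReal_le_ofReal_iff (by positivity)] at p2
    exact (pow_le_pow_iff_left₀ (norm_nonneg _) hε (by norm_num)).1 p2
  have hgz : ∀ F : ℝ, |F - E| ≤ r → ‖gz V (box c (3 * ℓ)) (zz η F) x y‖ ≤
      ε * (1 + 2 * d * (box c (3 * ℓ)).card / η) := fun F hF =>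
    hFvl d V _ η F ε ℓ x y hη hε hxB hy hout hxy (hG F hF)
  have := hHol d V (box c (3 * ℓ)) x y E r η _ hη hr (by positivity) hno hgz
  exact this.trans (max_le h2 h3)

/-- the probabilistic part -/
theorem cell_prob (hHol : HolStmt) (hFvl : FvlStmt) (hPtw : PtwStmt) (hWeg : WegStmt)
    (hShf : ShfStmt) {ν : Measure ℝ} [IsProbabilityMeasure ν] {ρ : ℝ} (hν : BddDens ν ρ)
    {c : Site d} {ℓ : ℕ} {η r h' q s ε A a b E : ℝ} (hη : 0 < η) (hh : 0 < h') (hr : 8 * η ≤ r)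
    (hε : 0 ≤ ε) (ha : a ≤ E - r - h') (hb : E + r + 2 * h' ≤ b) (hq : 0 < q) (hs : 0 ≤ s)
    (h1 : 2 / h' * q + 12 * h' ^ 2 / η ^ 4 ≤ ε ^ 2)
    (h2 : 3 * (ε * (1 + 2 * d * (box c (3 * ℓ)).card / η)) ≤ A)
    (h3 : 3 / r * Real.exp (-r / (4 * η)) ≤ A)
    (hspr : ENNReal.ofReal η * ∫⁻ V, spr V 0 η (Set.Ioo a b) ℓ ∂(PP d ν) ≤ ENNReal.ofReal s) :
    PL ν (box c (3 * ℓ)) {V | ¬ CellGood V c ℓ A E} ≤
      ENNReal.ofReal ((2 * ℓ + 1) ^ d * (s / (η * q)) +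
        64 * ρ * (box c (3 * ℓ)).card * (2 * r)) := by
  have hr0 : 0 < r := by linarith
  have hρ := hν.1
  have hint : ∫⁻ V, spr V 0 η (Set.Ioo a b) ℓ ∂(PP d ν) ≤ ENNReal.ofReal (s / η) := by
    rw [ENNReal.ofReal_div_of_pos hη, ENNReal.le_div_iff_mul_le
      (Or.inl (by rw [ne_eq, ENNReal.ofReal_eq_zero, not_le]; exact hη))
      (Or.inl ENNReal.ofReal_ne_top), mul_comm]
    exact hspr
  have hloc : Loc {V : Site d → ℝ | ¬ CellGood V c ℓ A E} (box c (3 * ℓ)) := by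
    intro V V' hVV
    exact not_congr (cellGood_congr hVV)
  have hms : MeasurableSet {V : Site d → ℝ | ¬ CellGood V c ℓ A E} :=
    (measurable_cellGood c ℓ A E).compl
  rw [PL_eq_PP hms hloc]
  have hsub : {V : Site d → ℝ | ¬ CellGood V c ℓ A E} ⊆
      (⋃ x ∈ box c ℓ, {V | ENNReal.ofReal q ≤ spr V x η (Set.Ioo a b) ℓ}) ∪
        {V | ¬ NoEig V (box c (3 * ℓ)) E (2 * r)} := by
    intro V hV
    by_contra hcon
    simp only [Set.mem_union, Set.mem_iUnion, Set.mem_ofPred_eq, not_or, not_exists, not_not,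
      not_le, exists_prop, not_and] at hcon
    exact hV (cell_det hHol hFvl hPtw hη hh hr hε ha hb hq.le h1 h2 h3
      (fun x hx => (hcon.1 x hx).le) hcon.2)
  have hq0 : ENNReal.ofReal q ≠ 0 := by
    rw [ne_eq, ENNReal.ofReal_eq_zero, not_le]; exact hq
  have hone : ∀ x : Site d, PP d ν {V | ENNReal.ofReal q ≤ spr V x η (Set.Ioo a b) ℓ} ≤
      ENNReal.ofReal (s / (η * q)) := by
    intro x
    obtain ⟨m1, m2⟩ := hShf d ν η hη.ne' a b ℓ x
    refine (meas_ge_le_lintegral_div m1.aemeasurable hq0 ENNReal.ofReal_ne_top).trans ?_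
    rw [m2, ← div_div, ENNReal.ofReal_div_of_pos hq]
    exact ENNReal.div_le_div_right hint _
  have hw : PP d ν {V | ¬ NoEig V (box c (3 * ℓ)) E (2 * r)} ≤
      ENNReal.ofReal (64 * ρ * (box c (3 * ℓ)).card * (2 * r)) := by
    refine (PP_le_PL (Λ := box c (3 * ℓ)) ?_).trans
      (hWeg d ν ρ hν (box c (3 * ℓ)) E (2 * r) (by positivity)).2
    intro V V' hVV
    exact not_congr (noEig_congr hVV)
  refine (measure_mono hsub).trans ((measure_union_le _ _).trans ?_)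
  rw [ENNReal.ofReal_add (by positivity) (by positivity)]
  refine add_le_add ?_ hw
  refine (measure_biUnion_finset_le _ _).trans ?_
  refine (Finset.sum_le_card_nsmul _ _ _ fun x _ => hone x).trans_eq ?_
  rw [card_box, nsmul_eq_mul, ENNReal.ofReal_mul (by positivity), ← ENNReal.ofReal_natCast]
  congr 2
  push_cast
  ring

/-! ### exponents -/

theorem ev_rpow {e : ℝ} (he : 0 < e) (K : ℝ) : ∀ᶠ ℓ : ℕ in atTop, K ≤ (ℓ : ℝ) ^ e :=
  ((tendsto_rpow_atTop he).comp tendsto_natCast_atTop_atTop).eventually_ge_atTop K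

theorem ev_exp {e : ℝ} (he : 0 < e) (k : ℝ) : ∀ᶠ ℓ : ℕ in atTop,
    3 * ((ℓ : ℝ) ^ k * Real.exp (-(1 / 4) * (ℓ : ℝ) ^ e)) ≤ 1 := by
  have h1 := tendsto_rpow_mul_exp_neg_mul_atTop_nhds_zero (k / e) (1 / 4) (by norm_num)
  have h2 := h1.comp ((tendsto_rpow_atTop he).comp tendsto_natCast_atTop_atTop)
  have h3 := h2.eventually (gt_mem_nhds (show (0 : ℝ) < 1 / 3 by norm_num))
  filter_upwards [h3] with ℓ hℓ
  simp only [Function.comp_apply] at hℓ
  rw [← Real.rpow_mul (Nat.cast_nonneg ℓ), mul_div_cancel₀ _ he.ne'] at hℓ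
  linarith

section Exponents

variable {N D δ η h K : ℝ}

theorem c1 (hN : 1 ≤ N) (hδ : 0 < δ) (hK : 3 ≤ N ^ (δ / 4)) (hη : η ≤ N ^ (-(D + δ))) :
    8 * η ≤ N ^ (-(D + δ / 2)) := by
  have hN0 : 0 < N := by linarith
  have h1 : N ^ (-(D + δ)) * (N ^ (δ / 4) * N ^ (δ / 4)) = N ^ (-(D + δ / 2)) := by
    rw [← Real.rpow_add hN0, ← Real.rpow_add hN0]
    congr 1
    ring
  rw [← h1]
  have h2 : 0 < N ^ (-(D + δ)) := Real.rpow_pos_of_pos hN0 _
  have h3 : 8 ≤ N ^ (δ / 4) * N ^ (δ / 4) := by nlinarith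
  nlinarith

theorem neg_le_inv (hN : 1 ≤ N) {e : ℝ} (he : 1 ≤ e) : N ^ (-e) ≤ 1 / N := by
  have hN0 : 0 < N := by linarith
  have h1 := Real.rpow_le_rpow_of_exponent_le hN (show -e ≤ -1 by linarith)
  rw [Real.rpow_neg_one] at h1
  rwa [one_div]

theorem c4 (hN : 14 ≤ N) (hD : 1 ≤ D) (hη : N ^ (-(D + 1)) ≤ η) :
    2 / N ^ (-(124 * D + 6)) * N ^ (-(398 * D - 3)) +
      12 * (N ^ (-(124 * D + 6))) ^ 2 / η ^ 4 ≤ (N ^ (-(122 * D + 3))) ^ 2 := by
  have hN0 : 0 < N := by linarith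
  have hη0 : 0 < η := lt_of_lt_of_le (Real.rpow_pos_of_pos hN0 _) hη
  have e1 : 2 / N ^ (-(124 * D + 6)) * N ^ (-(398 * D - 3)) = 2 * N ^ (-(274 * D - 9)) := by
    rw [Real.rpow_neg hN0.le (124 * D + 6), div_inv_eq_mul, mul_assoc, ← Real.rpow_add hN0]
    congr 2
    ring
  have e2 : (N ^ (-(124 * D + 6))) ^ 2 = N ^ (-(248 * D + 12)) := by
    rw [← Real.rpow_natCast, ← Real.rpow_mul hN0.le]
    congr 1
    push_cast
    ring
  have e3 : (N ^ (-(D + 1))) ^ 4 = N ^ (-(4 * D + 4)) := by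
    rw [← Real.rpow_natCast, ← Real.rpow_mul hN0.le]
    congr 1
    push_cast
    ring
  have e4 : (N ^ (-(122 * D + 3))) ^ 2 = N * N ^ (-(244 * D + 7)) := by
    rw [← Real.rpow_natCast, ← Real.rpow_mul hN0.le]
    nth_rewrite 2 [← Real.rpow_one N]
    rw [← Real.rpow_add hN0]
    congr 1
    push_cast
    ring
  have e5 : 12 * (N ^ (-(124 * D + 6))) ^ 2 / η ^ 4 ≤ 12 * N ^ (-(244 * D + 7)) := by
    rw [div_le_iff₀ (by positivity), e2]
    have h1 : N ^ (-(4 * D + 4)) ≤ η ^ 4 := by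
      rw [← e3]
      exact pow_le_pow_left₀ (Real.rpow_pos_of_pos hN0 _).le hη 4
    have h2 : N ^ (-(248 * D + 12)) ≤ N ^ (-(244 * D + 7)) * N ^ (-(4 * D + 4)) := by
      rw [← Real.rpow_add hN0]
      exact Real.rpow_le_rpow_of_exponent_le (by linarith) (by linarith)
    have h3 := mul_le_mul_of_nonneg_left h1 (Real.rpow_pos_of_pos hN0 (-(244 * D + 7))).le
    nlinarith
  have e6 : N ^ (-(274 * D - 9)) ≤ N ^ (-(244 * D + 7)) :=
    Real.rpow_le_rpow_of_exponent_le (by linarith) (by linarith)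
  rw [e1, e4]
  have h4 := Real.rpow_pos_of_pos hN0 (-(244 * D + 7))
  nlinarith

theorem inv_le_of_ge (hN : 0 < N) {e : ℝ} (hη : N ^ (-e) ≤ η) : 1 / η ≤ N ^ e := by
  have h0 := Real.rpow_pos_of_pos hN (-e)
  have h1 := one_div_le_one_div_of_le h0 hη
  rw [Real.rpow_neg hN.le, one_div ((N ^ e)⁻¹), inv_inv] at h1
  exact h1

theorem c5 (hN : 1 ≤ N) (hD : 1 ≤ D) (hη : N ^ (-(D + 1)) ≤ η) {M c₇ : ℝ} (hc : 0 ≤ c₇)
    (hM : M ≤ c₇ * N ^ D) (hM0 : 0 ≤ M) (hK : 3 * (1 + 2 * D * c₇) ≤ N) :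
    3 * (N ^ (-(122 * D + 3)) * (1 + 2 * D * M / η)) ≤ N ^ (-(120 * D)) := by
  have hN0 : 0 < N := by linarith
  have hη0 : 0 < η := lt_of_lt_of_le (Real.rpow_pos_of_pos hN0 _) hη
  have h1 := inv_le_of_ge hN0 hη
  have h2 : M / η ≤ c₇ * N ^ (2 * D + 1) := by
    have : M / η = M * (1 / η) := by ring
    rw [this]
    calc M * (1 / η) ≤ (c₇ * N ^ D) * N ^ (D + 1) :=
          mul_le_mul hM h1 (by positivity) (by positivity)
      _ = c₇ * N ^ (2 * D + 1) := by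
          rw [mul_assoc, ← Real.rpow_add hN0]
          congr 2
          ring
  have h3 : 1 ≤ N ^ (2 * D + 1) := Real.one_le_rpow hN (by linarith)
  have h4 : 1 + 2 * D * M / η ≤ (1 + 2 * D * c₇) * N ^ (2 * D + 1) := by
    have : 2 * D * M / η = 2 * D * (M / η) := by ring
    rw [this]
    have := mul_le_mul_of_nonneg_left h2 (show 0 ≤ 2 * D by linarith)
    nlinarith
  have h5 : N ^ (-(120 * D)) = N ^ (-(122 * D + 3)) * (N * N ^ (2 * D + 2)) := by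
    nth_rewrite 3 [← Real.rpow_one N]
    rw [← Real.rpow_add hN0, ← Real.rpow_add hN0]
    congr 1
    ring
  rw [h5]
  have h6 : N ^ (2 * D + 1) ≤ N ^ (2 * D + 2) :=
    Real.rpow_le_rpow_of_exponent_le hN (by linarith)
  have h7 : 3 * (1 + 2 * D * M / η) ≤ N * N ^ (2 * D + 2) := by
    calc 3 * (1 + 2 * D * M / η) ≤ 3 * ((1 + 2 * D * c₇) * N ^ (2 * D + 1)) := by linarith
      _ = (3 * (1 + 2 * D * c₇)) * N ^ (2 * D + 1) := by ring
      _ ≤ N * N ^ (2 * D + 2) := mul_le_mul hK h6 (by positivity) hN0.le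
  have h8 := Real.rpow_pos_of_pos hN0 (-(122 * D + 3))
  nlinarith

theorem c6 (hN : 1 ≤ N) (hD : 1 ≤ D) (hδ : 0 < δ) (hδ1 : δ ≤ 1) (hη0 : 0 < η)
    (hη : η ≤ N ^ (-(D + δ)))
    (hK : 3 * (N ^ (121 * D + 1) * Real.exp (-(1 / 4) * N ^ (δ / 2))) ≤ 1) :
    3 / N ^ (-(D + δ / 2)) * Real.exp (-N ^ (-(D + δ / 2)) / (4 * η)) ≤ N ^ (-(120 * D)) := by
  have hN0 : 0 < N := by linarith
  have e1 : 3 / N ^ (-(D + δ / 2)) ≤ 3 * N ^ (D + 1) := by
    rw [Real.rpow_neg hN0.le, div_inv_eq_mul]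
    have := Real.rpow_le_rpow_of_exponent_le hN (show D + δ / 2 ≤ D + 1 by linarith)
    linarith
  have e2 : Real.exp (-N ^ (-(D + δ / 2)) / (4 * η)) ≤ Real.exp (-(1 / 4) * N ^ (δ / 2)) := by
    apply Real.exp_le_exp.2
    have h1 : N ^ (δ / 2) * η ≤ N ^ (-(D + δ / 2)) := by
      have h2 : N ^ (δ / 2) * N ^ (-(D + δ)) = N ^ (-(D + δ / 2)) := by
        rw [← Real.rpow_add hN0]
        congr 1
        ring
      rw [← h2]
      exact mul_le_mul_of_nonneg_left hη (Real.rpow_pos_of_pos hN0 _).le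
    rw [div_le_iff₀ (by positivity)]
    linarith
  have e3 : N ^ (121 * D + 1) = N ^ (D + 1) * N ^ (120 * D) := by
    rw [← Real.rpow_add hN0]
    congr 1
    ring
  have e4 : N ^ (120 * D) * N ^ (-(120 * D)) = 1 := by
    rw [← Real.rpow_add hN0, add_neg_cancel, Real.rpow_zero]
  have hp := Real.rpow_pos_of_pos hN0 (-(120 * D))
  calc 3 / N ^ (-(D + δ / 2)) * Real.exp (-N ^ (-(D + δ / 2)) / (4 * η))
      ≤ 3 * N ^ (D + 1) * Real.exp (-(1 / 4) * N ^ (δ / 2)) := by gcongr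
    _ = (3 * (N ^ (D + 1) * Real.exp (-(1 / 4) * N ^ (δ / 2)))) *
        (N ^ (120 * D) * N ^ (-(120 * D))) := by rw [e4]; ring
    _ = (3 * (N ^ (121 * D + 1) * Real.exp (-(1 / 4) * N ^ (δ / 2)))) * N ^ (-(120 * D)) := by
        rw [e3]; ring
    _ ≤ 1 * N ^ (-(120 * D)) := by gcongr
    _ = _ := one_mul _

theorem c7 (hN : 1 ≤ N) (hD : 1 ≤ D) (hδ : 0 < δ) (hδ1 : δ ≤ 1) (hη : N ^ (-(D + 1)) ≤ η)
    {M₁ M₂ k₁ k₂ ρ : ℝ} (hk₁ : 0 ≤ k₁) (hk₂ : 0 ≤ k₂) (hρ : 0 ≤ ρ) (hM₁ : M₁ ≤ k₁ * N ^ D)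
    (hM₂ : M₂ ≤ k₂ * N ^ D) (hM₁0 : 0 ≤ M₁) (hM₂0 : 0 ≤ M₂)
    (hK₁ : 2 * k₁ ≤ N) (hK₂ : 256 * ρ * k₂ ≤ N ^ (δ / 4)) :
    M₁ * (N ^ (-(400 * D)) / (η * N ^ (-(398 * D - 3)))) + 64 * ρ * M₂ *
      (2 * N ^ (-(D + δ / 2))) ≤ N ^ (-(δ / 4)) := by
  have hN0 : 0 < N := by linarith
  have hη0 : 0 < η := lt_of_lt_of_le (Real.rpow_pos_of_pos hN0 _) hη
  have h1 := inv_le_of_ge hN0 hη
  have e1 : N ^ (-(400 * D)) / (η * N ^ (-(398 * D - 3))) ≤ N ^ (-(D + 2)) := by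
    have h2 : N ^ (-(400 * D)) / (η * N ^ (-(398 * D - 3))) =
        (1 / η) * (N ^ (-(400 * D)) * N ^ (398 * D - 3)) := by
      rw [Real.rpow_neg hN0.le (398 * D - 3)]
      field_simp
    rw [h2]
    calc (1 / η) * (N ^ (-(400 * D)) * N ^ (398 * D - 3))
        ≤ N ^ (D + 1) * (N ^ (-(400 * D)) * N ^ (398 * D - 3)) := by gcongr
      _ = N ^ (-(D + 2)) := by
          rw [← Real.rpow_add hN0, ← Real.rpow_add hN0]
          congr 1
          ring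
  have e2 : M₁ * (N ^ (-(400 * D)) / (η * N ^ (-(398 * D - 3)))) ≤ 1 / 2 * N ^ (-(δ / 4)) := by
    calc M₁ * (N ^ (-(400 * D)) / (η * N ^ (-(398 * D - 3))))
        ≤ (k₁ * N ^ D) * N ^ (-(D + 2)) := by gcongr
      _ = k₁ * (N ^ (-1 : ℝ) * N ^ (-1 : ℝ)) := by
          rw [mul_assoc, ← Real.rpow_add hN0, ← Real.rpow_add hN0]
          congr 2
          ring
      _ = (k₁ * N ^ (-1 : ℝ)) * N ^ (-1 : ℝ) := by ring
      _ ≤ 1 / 2 * N ^ (-(δ / 4)) := by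
          apply mul_le_mul
          · rw [Real.rpow_neg_one, ← div_eq_mul_inv, div_le_iff₀ hN0]
            linarith
          · exact Real.rpow_le_rpow_of_exponent_le hN (by linarith)
          · positivity
          · norm_num
  have e3 : 64 * ρ * M₂ * (2 * N ^ (-(D + δ / 2))) ≤ 1 / 2 * N ^ (-(δ / 4)) := by
    calc 64 * ρ * M₂ * (2 * N ^ (-(D + δ / 2)))
        ≤ 64 * ρ * (k₂ * N ^ D) * (2 * N ^ (-(D + δ / 2))) := by gcongr
      _ = 1 / 2 * ((256 * ρ * k₂) * (N ^ D * N ^ (-(D + δ / 2)))) := by ring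
      _ ≤ 1 / 2 * (N ^ (δ / 4) * (N ^ D * N ^ (-(D + δ / 2)))) := by gcongr
      _ = 1 / 2 * N ^ (-(δ / 4)) := by
          rw [← Real.rpow_add hN0, ← Real.rpow_add hN0]
          congr 2
          ring
  linarith

end Exponents

theorem cel (_ : GzbStmt) (hHol : HolStmt) (hWeg : WegStmt) (hFvl : FvlStmt) (hPtw : PtwStmt)
    (hShf : ShfStmt) : CelStmt := by
  intro d hd σ hσ δ h hδ hδ1 hh
  have hρ := bddDens_gl hσ
  have hρ0 := hρ.1
  set ρ : ℝ := 1 / |σ| with hρd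
  have hD : (1 : ℝ) ≤ d := by exact_mod_cast hd
  have ev1 := ev_rpow (show (0 : ℝ) < 1 by norm_num) (max (max 14 (3 / h))
    (max (3 * (1 + 2 * (d : ℝ) * 7 ^ d)) (2 * 3 ^ d)))
  have ev2 := ev_rpow (show (0 : ℝ) < δ / 4 by positivity) (max 3 (256 * ρ * 7 ^ d))
  have ev3 := ev_exp (show (0 : ℝ) < δ / 2 by positivity) (121 * (d : ℝ) + 1)
  obtain ⟨ℓ₀, hℓ₀⟩ := eventually_atTop.1 (ev1.and (ev2.and ev3))
  refine ⟨ℓ₀, ?_⟩
  intro ℓ hℓ η hη1 hη2 a b hspr E hE1 hE2 c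
  obtain ⟨k1, k2, k3⟩ := hℓ₀ ℓ hℓ
  rw [Real.rpow_one] at k1
  set N : ℝ := (ℓ : ℝ) with hN
  obtain ⟨⟨k11, k12⟩, k13, k14⟩ : (14 ≤ N ∧ 3 / h ≤ N) ∧
      3 * (1 + 2 * (d : ℝ) * 7 ^ d) ≤ N ∧ 2 * 3 ^ d ≤ N := by
    simpa only [max_le_iff] using k1
  obtain ⟨k21, k22⟩ : 3 ≤ N ^ (δ / 4) ∧ 256 * ρ * 7 ^ d ≤ N ^ (δ / 4) := by
    simpa only [max_le_iff] using k2
  have hN1 : 1 ≤ N := by linarith
  have hN0 : 0 < N := by linarith
  have hη0 : 0 < η := lt_of_lt_of_le (Real.rpow_pos_of_pos hN0 _) hη1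
  have hcard : (((box c (3 * ℓ)).card : ℕ) : ℝ) ≤ 7 ^ d * N ^ (d : ℝ) := by
    rw [card_box, Real.rpow_natCast, ← mul_pow]
    push_cast
    apply pow_le_pow_left₀ (by positivity)
    linarith
  have hcard2 : (2 * N + 1) ^ d ≤ 3 ^ d * N ^ (d : ℝ) := by
    rw [Real.rpow_natCast, ← mul_pow]
    apply pow_le_pow_left₀ (by positivity)
    linarith
  have hr : N ^ (-((d : ℝ) + δ / 2)) ≤ 1 / N := neg_le_inv hN1 (by linarith)
  have hh' : N ^ (-(124 * (d : ℝ) + 6)) ≤ 1 / N := neg_le_inv hN1 (by linarith)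
  have hNh : 3 * (1 / N) ≤ h := by
    rw [div_le_iff₀ hh] at k12
    rw [mul_one_div, div_le_iff₀ hN0]
    linarith
  have main := cell_prob hHol hFvl hPtw hWeg hShf hρ (c := c) (ℓ := ℓ) (η := η)
    (r := N ^ (-((d : ℝ) + δ / 2))) (h' := N ^ (-(124 * (d : ℝ) + 6)))
    (q := N ^ (-(398 * (d : ℝ) - 3))) (s := N ^ (-(400 * (d : ℝ))))
    (ε := N ^ (-(122 * (d : ℝ) + 3))) (A := N ^ (-(120 * (d : ℝ)))) (a := a) (b := b) (E := E)
    hη0 (Real.rpow_pos_of_pos hN0 _) (c1 hN1 hδ k21 hη2) (Real.rpow_pos_of_pos hN0 _).le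
    (by linarith) (by linarith) (Real.rpow_pos_of_pos hN0 _) (Real.rpow_pos_of_pos hN0 _).le
    (c4 k11 hD hη1) (c5 hN1 hD hη1 (by positivity) hcard (by positivity) k13)
    (c6 hN1 hD hδ hδ1 hη0 hη2 k3) hspr
  refine main.trans (ENNReal.ofReal_le_ofReal ?_)
  exact c7 hN1 hD hδ hδ1 hη1 (by positivity) (by positivity) hρ0.le hcard2 hcard (by positivity)
    (by positivity) k14 k22

end Pool.Agent.Mob.H75
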